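import Pool.Agent.LE.StmtsP
import Pool.Agent.Helper9_LSP.OscE
import Pool.Agent.Helper93_LEW.CRT

/-! LSP, row OST: the exponential tail of the oscillation. -/

set_option autoImplicit false

open MeasureTheory ProbabilityTheory Function Filter

open scoped ENNReal BigOperators Topology NNReal ComplexOrder

noncomputable section

namespace Pool.Agent.LE.CL.H09

open Pool.Agent.Anderson hiding box mem_box card_box
open Pool.Agent.Loc Pool.Agent.Mob Pool.Agent.Helper54.Bal
  Pool.Agent.Helper96.EXP Pool.Agent.BED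
open Pool.Agent.LE.MN

theorem pow_le_exp_div (n : ℕ) (hn : 1 ≤ n) (c x : ℝ) (hc : 0 < c) (hx : 0 ≤ x) :
    x ^ n ≤ (c * n) ^ n * Real.exp (x / c) := by
  have hn0 : (0 : ℝ) < n := by exact_mod_cast hn
  have h1 : x / (c * n) ≤ Real.exp (x / (c * n)) := by
    have := Real.add_one_le_exp (x / (c * n))
    linarith
  have h2 : (x / (c * n)) ^ n ≤ Real.exp (x / (c * n)) ^ n :=
    pow_le_pow_left₀ (by positivity) h1 n
  rw [← Real.exp_nat_mul] at h2
  have h3 : (n : ℝ) * (x / (c * n)) = x / c := by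
    field_simp
  rw [h3, div_pow, div_le_iff₀ (by positivity)] at h2
  linarith [mul_comm (Real.exp (x / c)) ((c * (n : ℝ)) ^ n)]

/-- from explicit moments to the tail -/
theorem tail_of_mom {Ω : Type} [MeasurableSpace Ω] (P : Measure Ω) (f : Ω → ℝ≥0∞) (d : ℕ)
    (hd : 1 ≤ d) (D M u : ℝ) (hD : 0 < D) (hM : 0 ≤ M) (hu : 0 ≤ u)
    (hf : Measurable f)
    (hm : ∀ q : ℕ, 1 ≤ q → ∫⁻ ω, f ω ^ q ∂P ≤ ENNReal.ofReal (M * (D * q) ^ q)) :
    ∫⁻ ω in {ω | ENNReal.ofReal u < f ω}, f ω ^ d ∂P ≤
      ENNReal.ofReal (M * (Real.exp (d + 1) * (12 * D * d) ^ d) * Real.exp (-(u / (12 * D)))) := by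
  have hd0 : (0 : ℝ) < d := by exact_mod_cast hd
  have hd1 : (1 : ℝ) ≤ d := by exact_mod_cast hd
  set q : ℕ := ⌊u / (6 * D)⌋₊ with hq
  have hq1 : (q : ℝ) ≤ u / (6 * D) := Nat.floor_le (by positivity)
  have hq2 : u / (6 * D) < q + 1 := Nat.lt_floor_add_one _
  have hq3 : q * (6 * D) ≤ u := by
    rwa [le_div_iff₀ (by positivity)] at hq1
  have hhalf : u / (12 * D) = (u / (6 * D)) / 2 := by
    field_simp
    ring
  by_cases hqd : q < d
  · have h1 : u / (12 * D) ≤ d := by
      have h2 : ((q : ℝ) + 1) ≤ d := by exact_mod_cast hqd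
      have h3 : 0 ≤ u / (6 * D) := by positivity
      rw [hhalf]
      linarith
    calc ∫⁻ ω in {ω | ENNReal.ofReal u < f ω}, f ω ^ d ∂P ≤ ∫⁻ ω, f ω ^ d ∂P :=
          setLIntegral_le_lintegral _ _
      _ ≤ ENNReal.ofReal (M * (D * d) ^ d) := hm d hd
      _ ≤ _ := by
          apply ENNReal.ofReal_le_ofReal
          have h4 : (D * (d : ℝ)) ^ d ≤ (12 * D * d) ^ d := by
            apply pow_le_pow_left₀ (by positivity)
            have : 0 ≤ D * (d : ℝ) := by positivity
            linarith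
          have h5 : 1 ≤ Real.exp (d + 1) * Real.exp (-(u / (12 * D))) := by
            rw [← Real.exp_add]
            apply Real.one_le_exp
            linarith
          calc M * (D * d) ^ d ≤ M * (12 * D * d) ^ d := mul_le_mul_of_nonneg_left h4 hM
            _ = M * (12 * D * d) ^ d * 1 := (mul_one _).symm
            _ ≤ M * (12 * D * d) ^ d * (Real.exp (d + 1) * Real.exp (-(u / (12 * D)))) :=
                mul_le_mul_of_nonneg_left h5 (by positivity)
            _ = _ := by ring
  · push Not at hqd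
    have hq0 : 1 ≤ q := hd.trans hqd
    have hq0' : (1 : ℝ) ≤ q := by exact_mod_cast hq0
    have hup : 0 < u := by
      have : 0 < (q : ℝ) * (6 * D) := by positivity
      linarith
    have hqd' : (d : ℝ) ≤ q := by exact_mod_cast hqd
    have key : ENNReal.ofReal u ^ q * ∫⁻ ω in {ω | ENNReal.ofReal u < f ω}, f ω ^ d ∂P ≤
        ENNReal.ofReal (M * ((u / 3) ^ q * u ^ d)) := by
      rw [← lintegral_const_mul' _ _ (ENNReal.pow_ne_top ENNReal.ofReal_ne_top)]
      have hmono : ∫⁻ ω in {ω | ENNReal.ofReal u < f ω}, ENNReal.ofReal u ^ q * f ω ^ d ∂P ≤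
          ∫⁻ ω in {ω | ENNReal.ofReal u < f ω}, f ω ^ (q + d) ∂P := by
        apply setLIntegral_mono' (measurableSet_lt measurable_const hf)
        intro ω hω
        have hω' : ENNReal.ofReal u < f ω := hω
        rw [pow_add]
        gcongr
      refine hmono.trans ((setLIntegral_le_lintegral _ _).trans ((hm (q + d) (by omega)).trans ?_))
      apply ENNReal.ofReal_le_ofReal
      apply mul_le_mul_of_nonneg_left _ hM
      have h1 : D * ((q + d : ℕ) : ℝ) ≤ u / 3 := by
        push_cast
        have : D * ((q : ℝ) + d) ≤ D * (2 * q) := mul_le_mul_of_nonneg_left (by linarith) hD.le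
        linarith
      have h2 : u / 3 ≤ u := by linarith
      calc (D * ((q + d : ℕ) : ℝ)) ^ (q + d) ≤ (u / 3) ^ (q + d) :=
            pow_le_pow_left₀ (by positivity) h1 _
        _ = (u / 3) ^ q * (u / 3) ^ d := pow_add _ _ _
        _ ≤ (u / 3) ^ q * u ^ d :=
            mul_le_mul_of_nonneg_left (pow_le_pow_left₀ (by positivity) h2 d) (by positivity)
    have huq : 0 < u ^ q := pow_pos hup q
    have hne0 : ENNReal.ofReal u ^ q ≠ 0 := by
      rw [← ENNReal.ofReal_pow hup.le]
      exact (ENNReal.ofReal_pos.mpr huq).ne'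
    have hnet : ENNReal.ofReal u ^ q ≠ ∞ := ENNReal.pow_ne_top ENNReal.ofReal_ne_top
    have h3 : ∫⁻ ω in {ω | ENNReal.ofReal u < f ω}, f ω ^ d ∂P ≤
        ENNReal.ofReal (M * ((1 / 3) ^ q * u ^ d)) := by
      have h4 : ENNReal.ofReal (M * ((u / 3) ^ q * u ^ d)) =
          ENNReal.ofReal u ^ q * ENNReal.ofReal (M * ((1 / 3) ^ q * u ^ d)) := by
        rw [← ENNReal.ofReal_pow hup.le, ← ENNReal.ofReal_mul huq.le]
        congr 1
        have : (u / 3) ^ q = u ^ q * (1 / 3) ^ q := by
          rw [← mul_pow]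
          congr 1
          ring
        rw [this]
        ring
      rw [h4] at key
      exact (ENNReal.mul_le_mul_iff_right hne0 hnet).mp key
    refine h3.trans (ENNReal.ofReal_le_ofReal ?_)
    have h5 : (1 / 3 : ℝ) ^ q ≤ Real.exp (1 - u / (6 * D)) := by
      have h6 : (1 / 3 : ℝ) ≤ Real.exp (-1) := by
        rw [Real.exp_neg, one_div]
        apply inv_anti₀ (Real.exp_pos 1)
        have := Real.exp_one_lt_d9
        linarith
      calc (1 / 3 : ℝ) ^ q ≤ Real.exp (-1) ^ q := pow_le_pow_left₀ (by norm_num) h6 q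
        _ = Real.exp (-(q : ℝ)) := by
            rw [← Real.exp_nat_mul]
            congr 1
            ring
        _ ≤ Real.exp (1 - u / (6 * D)) := by
            apply Real.exp_le_exp.mpr
            linarith
    have h7 := pow_le_exp_div d hd (12 * D) u (by positivity) hu
    have h8 : (1 / 3 : ℝ) ^ q * u ^ d ≤ Real.exp (1 - u / (6 * D)) *
        ((12 * D * d) ^ d * Real.exp (u / (12 * D))) :=
      mul_le_mul h5 h7 (by positivity) (Real.exp_pos _).le
    have h9 : Real.exp (1 - u / (6 * D)) * ((12 * D * d) ^ d * Real.exp (u / (12 * D))) =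
        Real.exp 1 * (12 * D * d) ^ d * Real.exp (-(u / (12 * D))) := by
      have h10 : Real.exp (1 - u / (6 * D)) * Real.exp (u / (12 * D)) =
          Real.exp 1 * Real.exp (-(u / (12 * D))) := by
        rw [← Real.exp_add, ← Real.exp_add]
        congr 1
        rw [hhalf]
        ring
      calc Real.exp (1 - u / (6 * D)) * ((12 * D * d) ^ d * Real.exp (u / (12 * D)))
          = (12 * D * d) ^ d * (Real.exp (1 - u / (6 * D)) * Real.exp (u / (12 * D))) := by ring
        _ = _ := by
            rw [h10]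
            ring
    have h11 : Real.exp 1 ≤ Real.exp (d + 1) := Real.exp_le_exp.mpr (by linarith)
    calc M * ((1 / 3) ^ q * u ^ d)
        ≤ M * (Real.exp 1 * (12 * D * d) ^ d * Real.exp (-(u / (12 * D)))) := by
          rw [← h9]
          exact mul_le_mul_of_nonneg_left h8 hM
      _ ≤ M * (Real.exp (d + 1) * (12 * D * d) ^ d * Real.exp (-(u / (12 * D)))) := by
          apply mul_le_mul_of_nonneg_left _ hM
          apply mul_le_mul_of_nonneg_right _ (Real.exp_pos _).le
          exact mul_le_mul_of_nonneg_right h11 (by positivity)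
      _ = _ := by ring

theorem ost (trf : TrfStmt) : OstStmt := by
  intro d hd
  have hd1 : (1 : ℝ) ≤ d := by exact_mod_cast hd
  obtain ⟨A, hA, K, hK, hm⟩ := Pool.Agent.LE.H9W.oscE trf hd (B₀ := 2 * d + 2) (by positivity)
  set D : ℝ := 32 * d with hDdef
  have hD : 0 < D := by positivity
  set L : ℝ := Real.exp (d + 1) * (12 * D * d) ^ d with hL
  have hL0 : 0 < L := by positivity
  refine ⟨A, 1 + K * L + 12 * D, hA, ?_, ?_⟩
  · have : 0 ≤ K * L := by positivity
    linarith
  intro σ E u N S c hσ hσ1 hE hu hS hSN hcN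
  have hR : 0 < |σ| ^ (-A) := Real.rpow_pos_of_pos (abs_pos.mpr hσ) _
  have h1 := tail_of_mom (PP d (gl σ)) (fun V => osc V N E S c 1) d hd D (K * |σ| ^ (-A)) u hD
    (by positivity) hu (Pool.Agent.LE.H93W.measurable_osc N E S c 1)
    (fun q hq => hm q hq σ E N S c hσ hσ1 hE hS hSN hcN)
  refine h1.trans (ENNReal.ofReal_le_ofReal ?_)
  have hC : 0 < 1 + K * L + 12 * D := by positivity
  have h2 : Real.exp (-(u / (12 * D))) ≤ Real.exp (-(u / (1 + K * L + 12 * D))) := by
    apply Real.exp_le_exp.mpr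
    apply neg_le_neg
    apply div_le_div_of_nonneg_left hu (by positivity)
    have : 0 ≤ K * L := by positivity
    linarith
  have h3 : K * |σ| ^ (-A) * L ≤ (1 + K * L + 12 * D) * |σ| ^ (-A) := by
    have h4 : K * L ≤ 1 + K * L + 12 * D := by linarith
    calc K * |σ| ^ (-A) * L = K * L * |σ| ^ (-A) := by ring
      _ ≤ _ := mul_le_mul_of_nonneg_right h4 hR.le
  exact mul_le_mul h3 h2 (Real.exp_pos _).le (by positivity)

end Pool.Agent.LE.CL.H09
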